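import Mathlib.Algebra.Field.Defs
import Mathlib.LinearAlgebra.Span.Defs

set_option autoImplicit false

namespace Pool.Agent.MP_16de82_co

/-- A finite set `K` of indices of a family of vectors is connected (in the sense of matroids) if
it cannot be split into two nonempty parts whose spans meet only in zero. -/
def Connected (F : Type) [Field F] {V : Type} [AddCommGroup V] [Module F V] {E : Type}
    (v : E → V) (K : Finset E) : Prop :=
  ∀ A : Set E, A ⊆ K →
    Disjoint (Submodule.span F (v '' A)) (Submodule.span F (v '' ((K : Set E) \ A))) →
      A = ∅ ∨ A = K

end Pool.Agent.MP_16de82_co
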