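import Mathlib.Tactic.Monotonicity.Lemmas
import Mathlib.RingTheory.Flat.TorsionFree
import Mathlib.Data.Int.ConditionallyCompleteOrder
import Mathlib.Data.Int.Star
import Mathlib.Algebra.Order.Ring.Star
import Mathlib.RingTheory.PicardGroup
import Mathlib.GroupTheory.Perm.DomMulAct
import Mathlib.LinearAlgebra.Matrix.Permanent
import Mathlib.RingTheory.SimpleRing.Principal
import Mathlib.RingTheory.TotallySplit
import Mathlib.RingTheory.Etale.Weakly
import Mathlib.RingTheory.Henselian
import Mathlib.RingTheory.MvPolynomial.IrreducibleQuadratic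
import Mathlib.RingTheory.RegularLocalRing.Defs
import Mathlib.Tactic.Algebra.Basic
import Pool.Agent.MP_16de82_co.Defs

-- ======== part 0: formerly Pool.Agent.MP_16de82_co.Tuple
section MrgPart0

set_option autoImplicit false
set_option linter.unusedSectionVars false

namespace Pool.Agent.MP_16de82_co

open Submodule Finset

variable {F : Type} [Field F] {V : Type} [AddCommGroup V] [Module F V]
variable {E : Type} [DecidableEq E]

/-- The hypotheses of the vanishing lemma for a function on `r`-tuples. -/
structure Cyc (v : E → V) (S : Finset E) (w u : V) (r : ℕ) (y : (Fin r → E) → F) : Prop where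
  supp : ∀ T, y T ≠ 0 → (∀ i, T i ∈ S) ∧ LinearIndependent F (v ∘ T) ∧
    w ∈ span F (Set.range (v ∘ T)) ∧ u ∉ span F (Set.range (v ∘ T))
  bd : ∀ T : Fin (r + 1) → E, (∀ i, T i ∈ S) → ¬ LinearIndependent F (v ∘ T) →
    ∑ i : Fin (r + 1), (-1 : F) ^ (i : ℕ) * y (T ∘ i.succAbove) = 0
  ao : ∀ (s : ℕ) (h : r = s + 1) (J : Fin s → E), w ∉ span F (Set.range (v ∘ J)) →
    ∑ g ∈ S, y (Fin.cons (α := fun _ => E) g J ∘ Fin.cast h) = 0

/-- Non-resonance: every relevant flat has a direct summand whose size is nonzero in `F`. -/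
def NonRes (F : Type) [Field F] {V : Type} [AddCommGroup V] [Module F V] {E : Type}
    [DecidableEq E] (v : E → V) (S : Finset E) (w u : V) : Prop :=
  ∀ U : Submodule F V, w ∈ U → u ∉ U → w ∈ span F (v '' {g | g ∈ S ∧ v g ∈ U}) →
    ∃ A : Finset E, (∀ g ∈ A, g ∈ S ∧ v g ∈ U) ∧ ((A.card : ℕ) : F) ≠ 0 ∧
      Disjoint (span F (v '' (A : Set E))) (span F (v '' {g | g ∈ S ∧ v g ∈ U ∧ g ∉ A}))

lemma comp_cons {r : ℕ} (v : E → V) (g : E) (J : Fin r → E) :
    v ∘ (Fin.cons (α := fun _ => E) g J) = Fin.cons (α := fun _ => V) (v g) (v ∘ J) := by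
  funext i; refine Fin.cases ?_ (fun j => ?_) i <;> simp

lemma cons_succAbove_succ {r : ℕ} (g : E) (T : Fin (r + 1) → E) (i : Fin (r + 1)) :
    (Fin.cons (α := fun _ => E) g T) ∘ (Fin.succ i).succAbove
      = Fin.cons (α := fun _ => E) g (T ∘ i.succAbove) := by
  funext j; refine Fin.cases ?_ (fun k => ?_) j
  · simp
  · simp [Fin.succ_succAbove_succ]

lemma cons_succAbove_zero {r : ℕ} (g : E) (T : Fin r → E) :
    (Fin.cons (α := fun _ => E) g T) ∘ (0 : Fin (r + 1)).succAbove = T := by
  funext j; simp

lemma range_cons' {r : ℕ} (a : V) (T : Fin r → V) :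
    Set.range (Fin.cons (α := fun _ => V) a T) = insert a (Set.range T) := Fin.range_cons a T

lemma li_cons_iff {r : ℕ} (a : V) (T : Fin r → V) :
    LinearIndependent F (Fin.cons (α := fun _ => V) a T) ↔
      LinearIndependent F T ∧ a ∉ span F (Set.range T) := linearIndependent_finCons

/-- The boundary relation for a tuple starting with `g`. -/
lemma Cyc.bd_cons {v : E → V} {S : Finset E} {w u : V} {r : ℕ} {y : (Fin (r + 1) → E) → F}
    (h : Cyc v S w u (r + 1) y) (g : E) (T : Fin (r + 1) → E) (hg : g ∈ S) (hT : ∀ i, T i ∈ S)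
    (hd : ¬ LinearIndependent F (Fin.cons (α := fun _ => V) (v g) (v ∘ T))) :
    y T = ∑ i : Fin (r + 1), (-1 : F) ^ (i : ℕ) *
      y (Fin.cons (α := fun _ => E) g (T ∘ i.succAbove)) := by
  have := h.bd (Fin.cons (α := fun _ => E) g T)
    (fun i => by refine Fin.cases ?_ (fun j => ?_) i <;> simp [hg, hT]) (by rwa [comp_cons])
  rw [Fin.sum_univ_succ, cons_succAbove_zero] at this
  simp only [Fin.val_zero, pow_zero, one_mul, Fin.val_succ, pow_succ, cons_succAbove_succ,
    mul_neg, mul_one, neg_mul, Finset.sum_neg_distrib] at this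
  linear_combination this

lemma Cyc.swap {v : E → V} {S : Finset E} {w u : V} {r : ℕ} {y : (Fin (r + 2) → E) → F}
    (h : Cyc v S w u (r + 2) y) (g g' : E) (J : Fin r → E) :
    y (Fin.cons (α := fun _ => E) g (Fin.cons (α := fun _ => E) g' J)) +
      y (Fin.cons (α := fun _ => E) g' (Fin.cons (α := fun _ => E) g J)) = 0 := by
  by_cases hS : g ∈ S ∧ g' ∈ S ∧ ∀ i, J i ∈ S
  · obtain ⟨hg, hg', hJ⟩ := hS
    have hz : ∀ T : Fin (r + 2) → E, ¬ Function.Injective T → y T = 0 := by
      intro T hT
      by_contra hne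
      exact hT (Function.Injective.of_comp (h.supp T hne).2.1.injective)
    have := h.bd_cons g (Fin.cons (α := fun _ => E) g' (Fin.cons (α := fun _ => E) g J)) hg
      (fun i => by
        refine Fin.cases ?_ (fun j => Fin.cases ?_ (fun k => ?_) j) i <;> simp [hg, hg', hJ])
      (by
        rw [li_cons_iff]
        rintro ⟨-, h2⟩
        exact h2 (subset_span ⟨1, by simp⟩))
    rw [this, Fin.sum_univ_succ, Fin.sum_univ_succ, cons_succAbove_zero, cons_succAbove_succ,
      cons_succAbove_zero]
    rw [hz (Fin.cons g (Fin.cons g J)) (fun hi => by simpa using @hi 0 1 (by simp))]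
    rw [Finset.sum_eq_zero]
    · simp
    · intro i _
      cases r with
      | zero => exact i.elim0
      | succ r =>
        rw [cons_succAbove_succ, cons_succAbove_succ, hz, mul_zero]
        intro hi
        have := @hi 0 (Fin.succ (Fin.succ 0)) (by simp only [Fin.cons_zero, Fin.cons_succ])
        exact absurd this.symm (Fin.succ_ne_zero _)
  · have h1 : y (Fin.cons (α := fun _ => E) g (Fin.cons (α := fun _ => E) g' J)) = 0 := by
      by_contra hne
      have := (h.supp _ hne).1
      exact hS ⟨by simpa using this 0, by simpa using this 1,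
        fun i => by simpa using this i.succ.succ⟩
    have h2 : y (Fin.cons (α := fun _ => E) g' (Fin.cons (α := fun _ => E) g J)) = 0 := by
      by_contra hne
      have := (h.supp _ hne).1
      exact hS ⟨by simpa using this 1, by simpa using this 0,
        fun i => by simpa using this i.succ.succ⟩
    rw [h1, h2, add_zero]

open Classical in
/-- The derived function on `r`-tuples. -/
noncomputable def der (v : E → V) (S : Finset E) (U : Submodule F V) {r : ℕ}
    (y : (Fin (r + 1) → E) → F) (J : Fin r → E) : F :=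
  if ∀ i, v (J i) ∈ U then
    ∑ g ∈ S.filter (fun g => v g ∈ U), y (Fin.cons (α := fun _ => E) g J) else 0

lemma not_li_of_finrank {U : Submodule F V} [FiniteDimensional F U] {m : ℕ} (T : Fin m → V)
    (hT : ∀ i, T i ∈ U) (hm : Module.finrank F U < m) : ¬ LinearIndependent F T := by
  intro h
  have h2 : LinearIndependent F (fun i => (⟨T i, hT i⟩ : U)) :=
    LinearIndependent.of_comp U.subtype h
  have := h2.fintype_card_le_finrank
  simp at this
  omega

lemma Cyc.der_cyc {v : E → V} {S : Finset E} {w u : V} {r : ℕ} {y : (Fin (r + 1) → E) → F}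
    (h : Cyc v S w u (r + 1) y) (U : Submodule F V) [FiniteDimensional F U]
    (hU : Module.finrank F U = r + 1) (hw : w ∈ U) : Cyc v S w u r (der v S U y) := by
  classical
  have hsupp : ∀ J, der v S U y J ≠ 0 → (∀ i, v (J i) ∈ U) ∧ (∀ i, J i ∈ S) ∧
      LinearIndependent F (v ∘ J) ∧ u ∉ span F (Set.range (v ∘ J)) := by
    intro J hJ
    unfold der at hJ
    split_ifs at hJ with hJU
    · obtain ⟨g, -, hg⟩ := Finset.exists_ne_zero_of_sum_ne_zero hJ
      obtain ⟨h1, h2, -, h4⟩ := h.supp _ hg
      rw [comp_cons, li_cons_iff] at h2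
      rw [comp_cons, range_cons'] at h4
      exact ⟨hJU, fun i => by simpa using h1 i.succ, h2.1,
        fun hu => h4 (span_mono (Set.subset_insert _ _) hu)⟩
    · exact absurd rfl hJ
  refine ⟨fun J hJ => ?_, fun T hTS hT => ?_, fun s hs J hJ => ?_⟩
  · obtain ⟨hJU, h1, h2, h4⟩ := hsupp J hJ
    refine ⟨h1, h2, ?_, h4⟩
    by_contra hwJ
    apply hJ
    have := h.ao r rfl J hwJ
    simp only [Fin.cast_refl, Function.comp_id] at this
    unfold der
    rw [if_pos hJU, Finset.sum_filter_of_ne, this]
    intro g _ hg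
    have h3 := (h.supp _ hg).2.2.1
    rw [comp_cons, range_cons'] at h3
    have h5 := mem_span_insert_exchange h3 hwJ
    refine (span_le.2 ?_ : span F (insert w (Set.range (v ∘ J))) ≤ U) h5
    rintro x (rfl | ⟨i, rfl⟩)
    · exact hw
    · exact hJU i
  · by_cases hTU : ∀ i, v (T i) ∈ U
    · have e1 : ∀ i : Fin (r + 1), der v S U y (T ∘ i.succAbove) =
          ∑ g ∈ S.filter (fun g => v g ∈ U),
            y (Fin.cons (α := fun _ => E) g (T ∘ i.succAbove)) := by
        intro i; unfold der; rw [if_pos]; exact fun j => hTU _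
      simp only [e1, Finset.mul_sum]
      rw [Finset.sum_comm]
      refine Finset.sum_eq_zero fun g hg => ?_
      rw [Finset.mem_filter] at hg
      rw [← h.bd_cons g T hg.1 hTS]
      · by_contra hne
        exact hT (h.supp T hne).2.1
      · refine not_li_of_finrank (U := U) _ (fun i => ?_) (by omega)
        refine Fin.cases ?_ (fun j => ?_) i
        · simpa using hg.2
        · simpa using hTU j
    · refine Finset.sum_eq_zero fun i _ => ?_
      by_contra hne
      obtain ⟨hJU, -, h2, -⟩ := hsupp _ (right_ne_zero_of_mul hne)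
      apply hT
      have hi : v (T i) ∉ U := by
        intro hi
        apply hTU
        intro j
        rcases Fin.eq_self_or_eq_succAbove i j with rfl | ⟨k, rfl⟩
        · exact hi
        · exact hJU k
      have h3 : LinearIndependent F (Fin.cons (α := fun _ => V) (v (T i))
          (v ∘ (T ∘ i.succAbove))) := by
        rw [li_cons_iff]
        refine ⟨h2, fun hm => hi ?_⟩
        refine (span_le.2 ?_ : span F (Set.range (v ∘ (T ∘ i.succAbove))) ≤ U) hm
        rintro x ⟨k, rfl⟩
        exact hJU k
      rw [← linearIndependent_equiv (finSuccEquiv' i).symm]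
      rw [← linearIndependent_equiv (finSuccEquiv' (0 : Fin (r + 1))).symm] at h3
      convert h3 using 1
      funext o
      cases o <;> simp
  · subst hs
    simp only [Fin.cast_refl, Function.comp_id]
    by_cases hJU : ∀ i, v (J i) ∈ U
    · have e1 : ∀ g ∈ S, der v S U y (Fin.cons (α := fun _ => E) g J) =
          if v g ∈ U then ∑ g' ∈ S.filter (fun g => v g ∈ U),
            y (Fin.cons (α := fun _ => E) g' (Fin.cons (α := fun _ => E) g J)) else 0 := by
        intro g _
        unfold der
        by_cases hg : v g ∈ U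
        · rw [if_pos hg, if_pos]
          intro i; refine Fin.cases ?_ (fun j => ?_) i
          · simpa using hg
          · simpa using hJU j
        · rw [if_neg hg, if_neg]
          intro hh; exact hg (by simpa using hh 0)
      rw [Finset.sum_congr rfl e1, ← Finset.sum_filter, ← Finset.sum_product']
      refine Finset.sum_involution (fun x _ => (x.2, x.1)) (fun x _ => h.swap _ _ _)
        (fun x _ hne heq => hne ?_) (fun x hx => by
          rw [Finset.mem_product] at hx ⊢; exact ⟨hx.2, hx.1⟩) (fun x _ => rfl)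
      have hx : x.2 = x.1 := congrArg Prod.fst heq
      by_contra hne'
      have := Function.Injective.of_comp (h.supp _ hne').2.1.injective
      have := @this 0 (Fin.succ 0) (by simp only [Fin.cons_zero, Fin.cons_succ, hx])
      exact absurd this.symm (Fin.succ_ne_zero _)
    · refine Finset.sum_eq_zero fun g _ => ?_
      unfold der
      rw [if_neg]
      intro hh
      exact hJU fun i => by simpa using hh i.succ

lemma mem_span_omit {v : E → V} {r : ℕ} (T : Fin (r + 1) → E) (A B : Set E) (g : E)
    (hd : Disjoint (span F (v '' A)) (span F (v '' B))) (hT : ∀ i, T i ∈ A ∨ T i ∈ B)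
    (hg : g ∈ A) (hgU : v g ∈ span F (Set.range (v ∘ T))) (i : Fin (r + 1)) (hi : T i ∉ A) :
    v g ∈ span F (Set.range (v ∘ (T ∘ i.succAbove))) := by
  classical
  obtain ⟨c, hc⟩ := (mem_span_range_iff_exists_fun F).1 hgU
  rw [← Finset.sum_filter_add_sum_filter_not univ (fun j => T j ∈ A)] at hc
  have h1 : ∑ j ∈ univ.filter (fun j => T j ∈ A), c j • (v ∘ T) j ∈ span F (v '' A) :=
    sum_mem fun j hj => smul_mem _ _ (subset_span ⟨T j, by simpa using hj, rfl⟩)
  have h2 : ∑ j ∈ univ.filter (fun j => ¬ T j ∈ A), c j • (v ∘ T) j ∈ span F (v '' B) :=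
    sum_mem fun j hj => smul_mem _ _ (subset_span ⟨T j, (hT j).resolve_left (by simpa using hj),
      rfl⟩)
  have h3 : ∑ j ∈ univ.filter (fun j => ¬ T j ∈ A), c j • (v ∘ T) j ∈ span F (v '' A) := by
    have : ∑ j ∈ univ.filter (fun j => ¬ T j ∈ A), c j • (v ∘ T) j
        = v g - ∑ j ∈ univ.filter (fun j => T j ∈ A), c j • (v ∘ T) j := by
      rw [← hc]; abel
    rw [this]
    exact sub_mem (subset_span ⟨g, hg, rfl⟩) h1
  rw [(Submodule.disjoint_def.1 hd) _ h3 h2, add_zero] at hc
  rw [← hc]
  refine sum_mem fun j hj => smul_mem _ _ (subset_span ?_)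
  rcases Fin.eq_self_or_eq_succAbove i j with rfl | ⟨k, rfl⟩
  · exact absurd (by simpa using hj) hi
  · exact ⟨k, rfl⟩

/-- The vanishing lemma. -/
theorem Cyc.eq_zero {v : E → V} {S : Finset E} {w u : V} (hw : w ≠ 0) (hN : NonRes F v S w u) :
    ∀ (r : ℕ) (y : (Fin r → E) → F), Cyc v S w u r y → ∀ T, y T = 0 := by
  classical
  intro r
  induction r with
  | zero =>
    intro y h T
    by_contra hne
    have := (h.supp T hne).2.2.1
    rw [Set.range_eq_empty, span_empty, mem_bot] at this
    exact hw this
  | succ r ih =>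
    intro y h T
    by_contra hne
    obtain ⟨hTS, hli, hwT, huT⟩ := h.supp T hne
    set U := span F (Set.range (v ∘ T)) with hUdef
    have : FiniteDimensional F U := FiniteDimensional.span_of_finite F (Set.finite_range _)
    have hU : Module.finrank F U = r + 1 := by
      rw [hUdef, finrank_span_eq_card hli]; simp
    have hTU : ∀ i, v (T i) ∈ U := fun i => subset_span ⟨i, rfl⟩
    have hz := ih _ (h.der_cyc U hU hwT)
    obtain ⟨A, hA, hcard, hdis⟩ := hN U hwT huT (by
      refine span_mono ?_ hwT
      rintro x ⟨i, rfl⟩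
      exact ⟨T i, ⟨hTS i, hTU i⟩, rfl⟩)
    set B : Set E := {g | g ∈ S ∧ v g ∈ U ∧ g ∉ A} with hB
    have hT : ∀ i, T i ∈ (A : Set E) ∨ T i ∈ B := fun i => by
      by_cases hi : T i ∈ A
      · exact Or.inl hi
      · exact Or.inr ⟨hTS i, hTU i, hi⟩
    have key : ∀ g ∈ S.filter (fun g => v g ∈ U), (if g ∈ A then y T else 0) =
        ∑ i ∈ univ.filter (fun i => T i ∈ A), (-1 : F) ^ (i : ℕ) *
          y (Fin.cons (α := fun _ => E) g (T ∘ i.succAbove)) := by
      intro g hg
      rw [Finset.mem_filter] at hg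
      have hz' : ∀ i : Fin (r + 1), v g ∈ span F (Set.range (v ∘ (T ∘ i.succAbove))) →
          y (Fin.cons (α := fun _ => E) g (T ∘ i.succAbove)) = 0 := by
        intro i hi
        by_contra hne'
        have := (h.supp _ hne').2.1
        rw [comp_cons, li_cons_iff] at this
        exact this.2 hi
      split_ifs with hgA
      · rw [h.bd_cons g T hg.1 hTS (by rw [li_cons_iff]; exact fun hh => hh.2 hg.2)]
        symm
        refine Finset.sum_filter_of_ne fun i _ hi => ?_
        by_contra hiA
        exact hi (by rw [hz' i (mem_span_omit T A B g hdis hT hgA hg.2 i hiA), mul_zero])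
      · symm
        refine Finset.sum_eq_zero fun i hi => ?_
        rw [hz' i (mem_span_omit T B A g hdis.symm (fun j => (hT j).symm) ⟨hg.1, hg.2, hgA⟩ hg.2 i
          (fun hh => hh.2.2 (by simpa using hi))), mul_zero]
    have h1 := Finset.sum_congr rfl key
    rw [Finset.sum_comm, ← Finset.sum_filter, Finset.sum_const] at h1
    have h2 : (S.filter (fun g => v g ∈ U)).filter (fun g => g ∈ A) = A := by
      ext g; simp only [Finset.mem_filter]
      exact ⟨fun hh => hh.2, fun hh => ⟨hA g hh, hh⟩⟩
    rw [h2, Finset.sum_eq_zero, nsmul_eq_mul] at h1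
    · exact (mul_ne_zero hcard hne) h1
    · intro i _
      rw [← Finset.mul_sum]
      have := hz (T ∘ i.succAbove)
      unfold der at this
      rw [if_pos (show ∀ j, v ((T ∘ i.succAbove) j) ∈ U from fun j => hTU _)] at this
      rw [this, mul_zero]

end Pool.Agent.MP_16de82_co

end MrgPart0

-- ======== part 1: formerly Pool.Agent.MP_16de82_co.Poly
section MrgPart1

set_option autoImplicit false
set_option linter.unusedSectionVars false

namespace Pool.Agent.MP_16de82_co

open MvPolynomial Finset

variable {F : Type} [Field F] {n : ℕ}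

/-- The linear form with coefficient vector `a`. -/
noncomputable def lf : (Fin n → F) →ₗ[F] MvPolynomial (Fin n) F :=
  Fintype.linearCombination F (fun i => (X i : MvPolynomial (Fin n) F))

/-- The exponent vector with all entries `p - 1`. -/
noncomputable def top (n p : ℕ) : Fin n →₀ ℕ := Finsupp.equivFunOnFinite.symm (fun _ => p - 1)

/-- The coefficient of the monomial with all exponents `p - 1`. -/
noncomputable def phi (p : ℕ) : MvPolynomial (Fin n) F →ₗ[F] F := lcoeff F (top n p)

lemma lf_apply (a : Fin n → F) : lf a = ∑ i, a i • (X i : MvPolynomial (Fin n) F) := by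
  simp [lf, Fintype.linearCombination_apply]

lemma phi_apply (p : ℕ) (g : MvPolynomial (Fin n) F) : phi p g = coeff (top n p) g := rfl

@[simp] lemma top_apply (p : ℕ) (i : Fin n) : top n p i = p - 1 := rfl

lemma phi_pderiv {p : ℕ} (hp : p.Prime) [CharP F p] (i : Fin n) (g : MvPolynomial (Fin n) F) :
    phi p (pderiv i g) = 0 := by
  rw [phi_apply, coeff_pderiv, top_apply]
  have : ((p - 1 : ℕ) : F) + 1 = 0 := by
    have h := CharP.cast_eq_zero F p
    have h2 : p - 1 + 1 = p := Nat.sub_add_cancel hp.one_le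
    rw [← h2] at h
    simpa using h
  rw [this, mul_zero]

lemma pderiv_lf (i : Fin n) (a : Fin n → F) : pderiv i (lf a) = C (a i) := by
  classical
  rw [lf_apply, map_sum, Finset.sum_eq_single i]
  · simp [smul_eq_C_mul]
  · intro j _ hj
    simp [pderiv_X, Pi.single_eq_of_ne hj]
  · simp

lemma pderiv_prod {E : Type} [DecidableEq E] (i : Fin n) (v : E → Fin n → F) (s : Finset E) :
    pderiv i (∏ g ∈ s, lf (v g)) = ∑ g ∈ s, v g i • ∏ h ∈ s.erase g, lf (v h) := by
  induction s using Finset.induction_on with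
  | empty => simp
  | insert a s ha ih =>
    rw [Finset.prod_insert ha, Finset.sum_insert ha, Derivation.leibniz, ih, pderiv_lf,
      Finset.erase_insert ha, add_comm, smul_eq_mul, smul_eq_mul, Finset.mul_sum]
    congr 1
    · rw [smul_eq_C_mul, mul_comm]
    · refine Finset.sum_congr rfl fun g hg => ?_
      have hne : a ≠ g := fun h => ha (h ▸ hg)
      rw [Finset.erase_insert_of_ne hne, Finset.prod_insert (fun h => ha (mem_of_mem_erase h)),
        mul_smul_comm]

lemma deriv_rel {p : ℕ} (hp : p.Prime) [CharP F p] {E : Type} [DecidableEq E]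
    (ξ : (Fin n → F) →ₗ[F] F) (v : E → Fin n → F) (s : Finset E) :
    ∑ g ∈ s, ξ (v g) * phi p (∏ h ∈ s.erase g, lf (v h)) = 0 := by
  have h1 : ∀ g, ξ (v g) = ∑ i, v g i * ξ (Pi.single i 1) := by
    intro g
    conv_lhs => rw [pi_eq_sum_univ' (v g)]
    simp [map_sum]
  simp only [h1, Finset.sum_mul]
  rw [Finset.sum_comm]
  refine Finset.sum_eq_zero fun i _ => ?_
  have := phi_pderiv hp i (∏ g ∈ s, lf (v g))
  rw [pderiv_prod, map_sum] at this
  simp only [map_smul, smul_eq_mul] at this
  calc _ = ξ (Pi.single i 1) * ∑ g ∈ s, v g i * phi p (∏ h ∈ s.erase g, lf (v h)) := by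
        rw [Finset.mul_sum]; exact Finset.sum_congr rfl fun g _ => by ring
    _ = 0 := by rw [this, mul_zero]

lemma phi_pow {p : ℕ} (hp : p.Prime) [CharP F p] (a : Fin n → F) (G : MvPolynomial (Fin n) F) :
    phi p (lf a ^ p * G) = 0 := by
  classical
  have := Fact.mk hp
  rw [lf_apply, sum_pow_char, Finset.sum_mul, map_sum]
  refine Finset.sum_eq_zero fun i _ => ?_
  rw [smul_pow, smul_mul_assoc, map_smul, phi_apply, X_pow_eq_monomial, coeff_monomial_mul',
    if_neg, smul_zero]
  intro h
  have := h i
  simp at this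
  have := hp.one_le
  omega

lemma phi_base {p : ℕ} (hp : p.Prime) [CharP F p] (a : Fin n → Fin n → F)
    (ha : (Matrix.of a).det ≠ 0) : phi p (∏ i, lf (a i) ^ (p - 1)) ≠ 0 := by
  classical
  intro h0
  set b := (Matrix.of a)⁻¹ with hb
  have hba : b * Matrix.of a = 1 := Matrix.nonsing_inv_mul _ (Ne.isUnit ha)
  set ψ : MvPolynomial (Fin n) F →ₐ[F] MvPolynomial (Fin n) F := aeval (fun i => lf (a i))
  have h1 : ∀ k, ψ (lf (b k)) = X k := by
    intro k
    rw [lf_apply, map_sum]
    simp only [map_smul, ψ, aeval_X]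
    simp only [← map_smul]
    rw [← map_sum]
    have : ∑ x, b k x • a x = Pi.single k 1 := by
      funext j
      have := congrFun (congrFun hba k) j
      simp only [Matrix.mul_apply, Matrix.of_apply, Matrix.one_apply] at this
      simp [Finset.sum_apply, this, Pi.single_apply, eq_comm]
    rw [this]
    simp [lf, Fintype.linearCombination_apply_single]
  set Q : MvPolynomial (Fin n) F := ∏ k, lf (b k) ^ (p - 1) with hQ
  have hQh : Q.IsHomogeneous (∑ _k : Fin n, (p - 1)) := by
    refine IsHomogeneous.prod _ _ _ fun k _ => ?_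
    have : (lf (b k)).IsHomogeneous 1 := by
      rw [lf_apply]
      exact IsHomogeneous.sum _ _ _ fun i _ => by
        rw [smul_eq_C_mul]; exact (isHomogeneous_X F i).C_mul _
    simpa using this.pow (p - 1)
  have h2 : ψ Q = monomial (top n p) 1 := by
    rw [hQ, map_prod]
    simp only [map_pow, h1]
    rw [monomial_eq, Finsupp.prod_fintype _ _ (by simp)]
    simp
  have h3 : phi p (ψ Q) = 0 := by
    rw [Q.as_sum, map_sum, map_sum]
    refine Finset.sum_eq_zero fun d hd => ?_
    rw [aeval_monomial, Finsupp.prod_fintype _ _ (by simp), ← Algebra.smul_def, map_smul]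
    by_cases hle : ∀ i, d i ≤ p - 1
    · have hdeg : ∑ i, d i = ∑ _k : Fin n, (p - 1) := by
        have := hQh (mem_support_iff.1 hd)
        rw [← this, Finsupp.weight_apply, Finsupp.sum_fintype _ _ (by simp)]
        simp
      have := (Finset.sum_eq_sum_iff_of_le (fun i _ => hle i)).1 hdeg
      rw [Finset.prod_congr rfl (fun i hi => by rw [this i hi]), h0, smul_zero]
    · push Not at hle
      obtain ⟨i, hi⟩ := hle
      rw [← Finset.mul_prod_erase _ _ (mem_univ i), show d i = p + (d i - p) by omega, pow_add,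
        mul_assoc, phi_pow hp, smul_zero]
  rw [h2, phi_apply, coeff_monomial, if_pos rfl] at h3
  exact one_ne_zero h3

lemma permanent_eq (p : ℕ) (c : Fin (p - 1) × Fin n → Fin n → F) :
    (Matrix.of fun (x y : Fin (p - 1) × Fin n) => c y x.2).permanent =
      ((p - 1).factorial : F) ^ n * phi p (∏ y, lf (c y)) := by
  classical
  have hfib : ∀ i : Fin n, Fintype.card {y : (Fin (p - 1) × Fin n) // y.2 = i} = p - 1 := by
    intro i
    have e : {y : (Fin (p - 1) × Fin n) // y.2 = i} ≃ Fin (p - 1) :=
      ⟨fun y => y.1.1, fun k => ⟨(k, i), rfl⟩, fun y => by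
        obtain ⟨⟨k, j⟩, rfl⟩ := y; rfl, fun k => rfl⟩
    rw [Fintype.card_congr e, Fintype.card_fin]
  have h1 : phi p (∏ y, lf (c y)) = ∑ ρ : (Fin (p - 1) × Fin n) → Fin n,
      if (∀ i, Fintype.card {y // ρ y = i} = p - 1) then ∏ y, c y (ρ y) else 0 := by
    simp only [lf_apply]
    rw [Finset.prod_univ_sum, Fintype.piFinset_univ, map_sum]
    refine Finset.sum_congr rfl fun ρ _ => ?_
    rw [Finset.prod_smul, map_smul, smul_eq_mul]
    have : ∏ y, (X (ρ y) : MvPolynomial (Fin n) F) =
        monomial (∑ y, Finsupp.single (ρ y) 1) 1 := by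
      rw [monomial_sum_one]; rfl
    rw [this, phi_apply, coeff_monomial]
    have h2 : (∑ y, Finsupp.single (ρ y) 1 = top n p) ↔
        ∀ i, Fintype.card {y // ρ y = i} = p - 1 := by
      rw [Finsupp.ext_iff]
      refine forall_congr' fun i => ?_
      rw [Finsupp.finsetSum_apply, top_apply, Fintype.card_subtype, Finset.card_filter]
      simp [Finsupp.single_apply]
    by_cases hh : ∀ i, Fintype.card {y // ρ y = i} = p - 1
    · rw [if_pos hh, if_pos (h2.2 hh), mul_one]
    · rw [if_neg hh, if_neg (fun h => hh (h2.1 h)), mul_zero]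
  rw [h1, Finset.mul_sum, Matrix.permanent,
    ← Finset.sum_fiberwise_of_maps_to (g := fun σ : Equiv.Perm (Fin (p - 1) × Fin n) => Prod.snd ∘ σ)
      (t := univ) (fun _ _ => mem_univ _)]
  refine Finset.sum_congr rfl fun ρ _ => ?_
  rw [Finset.sum_congr rfl (g := fun _ => ∏ y, c y (ρ y)) (fun σ hσ => by
    rw [Finset.mem_filter] at hσ
    simp only [Matrix.of_apply, ← hσ.2, Function.comp_apply]), Finset.sum_const, nsmul_eq_mul]
  split_ifs with hρ
  · congr 1
    let σ0 : Equiv.Perm (Fin (p - 1) × Fin n) := Equiv.ofFiberEquiv (f := ρ) (g := Prod.snd)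
      (fun i => Fintype.equivOfCardEq (by rw [hρ i, hfib i]))
    have hσ0 : ∀ y, (σ0 y).2 = ρ y := fun y => Equiv.ofFiberEquiv_map _ y
    have := DomMulAct.stabilizer_card (fun y : (Fin (p - 1) × Fin n) => y.2)
    simp only [hfib, Finset.prod_const, Finset.card_univ, Fintype.card_fin] at this
    rw [← Nat.cast_pow, ← this, Fintype.card_subtype]
    congr 1
    refine Finset.card_bij (fun σ _ => σ * σ0⁻¹) (fun σ hσ => ?_) (fun σ _ τ _ h => by simpa using h)
      (fun τ hτ => ⟨τ * σ0, ?_, by simp⟩)
    · rw [Finset.mem_filter] at hσ ⊢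
      refine ⟨mem_univ _, funext fun y => ?_⟩
      have := congrFun hσ.2 (σ0⁻¹ y)
      simp only [Function.comp_apply] at this
      rw [← hσ0] at this
      simpa using this
    · rw [Finset.mem_filter] at hτ ⊢
      refine ⟨mem_univ _, funext fun y => ?_⟩
      have := congrFun hτ.2 (σ0 y)
      simp only [Function.comp_apply] at this
      simp [this, hσ0]
  · rw [mul_zero, Finset.filter_eq_empty_iff.2, Finset.card_empty, Nat.cast_zero, zero_mul]
    intro σ _ hσ
    apply hρ
    intro i
    refine Eq.trans ?_ (hfib i)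
    subst hσ
    exact Fintype.card_congr (Equiv.subtypeEquiv σ fun y => Iff.rfl)

end Pool.Agent.MP_16de82_co

end MrgPart1

-- ======== part 2: formerly Pool.Agent.MP_16de82_co.Move
section MrgPart2

set_option autoImplicit false
set_option linter.unusedSectionVars false

namespace Pool.Agent.MP_16de82_co

open Submodule Finset

variable {F : Type} [Field F] {E : Type} [DecidableEq E] [Fintype E]

lemma det_ne_zero_iff {n : ℕ} (R : Fin n → Fin n → F) :
    (Matrix.of R).det ≠ 0 ↔ LinearIndependent F R := by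
  refine ⟨fun h => Matrix.linearIndependent_rows_of_det_ne_zero h, fun h => ?_⟩
  have : IsUnit (Matrix.of R) := Matrix.linearIndependent_rows_iff_isUnit.1 h
  exact ((Matrix.isUnit_iff_isUnit_det _).1 this).ne_zero

lemma laplace {n : ℕ} (R : Fin (n + 1) → Fin n → F) (α : Fin (n + 1) → F) :
    ∑ i : Fin (n + 1), (-1 : F) ^ (i : ℕ) * (α i * (Matrix.of (R ∘ i.succAbove)).det) =
      (Matrix.of fun i => Fin.cons (α := fun _ => F) (α i) (R i)).det := by
  rw [Matrix.det_succ_column_zero]
  refine Finset.sum_congr rfl fun i _ => ?_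
  rw [mul_assoc]
  rfl

lemma laplace_lin {n : ℕ} (R : Fin (n + 1) → Fin n → F) (ξ : (Fin n → F) →ₗ[F] F) :
    ∑ i : Fin (n + 1), (-1 : F) ^ (i : ℕ) * (ξ (R i) * (Matrix.of (R ∘ i.succAbove)).det) = 0 := by
  rw [laplace R (fun i => ξ (R i))]
  by_contra hne
  rw [← Ne, det_ne_zero_iff] at hne
  let L : (Fin n → F) →ₗ[F] (Fin (n + 1) → F) :=
    { toFun := fun a => Fin.cons (α := fun _ => F) (ξ a) a
      map_add' := fun a b => by funext i; refine Fin.cases ?_ (fun j => ?_) i <;> simp
      map_smul' := fun c a => by funext i; refine Fin.cases ?_ (fun j => ?_) i <;> simp }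
  have := (LinearIndependent.of_comp L (v := R) hne).fintype_card_le_finrank
  simp at this

lemma laplace_eq {n : ℕ} (R : Fin (n + 1) → Fin n → F) (α : Fin (n + 1) → F) (i j : Fin (n + 1))
    (hij : i ≠ j) (h1 : R i = R j) (h2 : α i = α j) :
    ∑ i : Fin (n + 1), (-1 : F) ^ (i : ℕ) * (α i * (Matrix.of (R ∘ i.succAbove)).det) = 0 := by
  rw [laplace]
  exact Matrix.det_zero_of_row_eq hij (by funext k; simp [h1, h2])

/-- There is a basis among the vectors whose complementary product has nonzero top coefficient. -/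
def Good {n : ℕ} (p : ℕ) (v : E → Fin n → F) : Prop :=
  ∃ T : Fin n → E, LinearIndependent F (v ∘ T) ∧
    phi p (∏ g ∈ univ \ univ.image T, lf (v g)) ≠ 0

lemma image_cons {r : ℕ} (g : E) (J : Fin r → E) :
    univ.image (Fin.cons (α := fun _ => E) g J) = insert g (univ.image J) := by
  ext x; simp [Fin.exists_fin_succ, eq_comm]

lemma image_succAbove {r : ℕ} (T : Fin (r + 1) → E) (i : Fin (r + 1)) :
    univ.image T = insert (T i) (univ.image (T ∘ i.succAbove)) := by
  ext x; simp [Fin.exists_iff_succAbove i, eq_comm]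

lemma sum_cons {r : ℕ} {V : Type} (D : (Fin (r + 1) → V) → F) (u : V) (T : Fin (r + 1) → V)
    (a : F) (α : Fin (r + 1) → F) :
    ∑ i : Fin (r + 2), (-1 : F) ^ (i : ℕ) * (Fin.cons (α := fun _ => F) a α i *
      D (Fin.cons (α := fun _ => V) u T ∘ i.succAbove)) =
    a * D T - ∑ i : Fin (r + 1), (-1 : F) ^ (i : ℕ) *
      (α i * D (Fin.cons (α := fun _ => V) u (T ∘ i.succAbove))) := by
  classical
  rw [Fin.sum_univ_succ, cons_succAbove_zero]
  simp only [Fin.val_zero, pow_zero, one_mul, Fin.val_succ, pow_succ, cons_succAbove_succ,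
    mul_neg, mul_one, neg_mul, Finset.sum_neg_distrib, Fin.cons_zero, Fin.cons_succ]
  ring

open Classical in
/-- The function on `r`-tuples attached to a new vector `u`. -/
noncomputable def zf {r : ℕ} (p : ℕ) (v : E → Fin (r + 1) → F) (S : Finset E)
    (u : Fin (r + 1) → F) (I : Fin r → E) : F :=
  if ∀ i, I i ∈ S then phi p (∏ g ∈ S \ univ.image I, lf (v g)) *
    (Matrix.of (Fin.cons (α := fun _ => Fin (r + 1) → F) u (v ∘ I))).det else 0

lemma zf_inj {r : ℕ} (p : ℕ) (v : E → Fin (r + 1) → F) (S : Finset E) (u : Fin (r + 1) → F)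
    (T : Fin (r + 1) → E) (hTS : ∀ i, T i ∈ S) (hT : Function.Injective T) :
    ∑ i : Fin (r + 1), (-1 : F) ^ (i : ℕ) * zf p v S u (T ∘ i.succAbove) =
      phi p (lf u * ∏ g ∈ S \ univ.image T, lf (v g)) * (Matrix.of (v ∘ T)).det := by
  classical
  set G := ∏ g ∈ S \ univ.image T, lf (v g) with hG
  let ξ : (Fin (r + 1) → F) →ₗ[F] F := (phi p).comp ((LinearMap.mulRight F G).comp lf)
  have h1 := laplace_lin (Fin.cons (α := fun _ => Fin (r + 1) → F) u (v ∘ T)) ξ
  have h2 := sum_cons (fun R => (Matrix.of R).det) u (v ∘ T) (ξ u) (fun i => ξ (v (T i)))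
  have h3 : ∀ i : Fin (r + 2), ξ (Fin.cons (α := fun _ => Fin (r + 1) → F) u (v ∘ T) i) =
      Fin.cons (α := fun _ => F) (ξ u) (fun i => ξ (v (T i))) i := by
    intro i; refine Fin.cases ?_ (fun j => ?_) i <;> simp
  simp only [h3] at h1
  rw [h1] at h2
  have h4 : ∀ i : Fin (r + 1), zf p v S u (T ∘ i.succAbove) = ξ (v (T i)) *
      (Matrix.of (Fin.cons (α := fun _ => Fin (r + 1) → F) u ((v ∘ T) ∘ i.succAbove))).det := by
    intro i
    unfold zf
    rw [if_pos (show ∀ j, (T ∘ i.succAbove) j ∈ S from fun j => hTS _)]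
    have hni : T i ∉ univ.image (T ∘ i.succAbove) := by
      simp only [Finset.mem_image, mem_univ, true_and, Function.comp_apply, not_exists]
      exact fun j hj => Fin.succAbove_ne i j (hT hj)
    have : S \ univ.image (T ∘ i.succAbove) = insert (T i) (S \ univ.image T) := by
      rw [image_succAbove T i]
      ext x
      simp only [Finset.mem_sdiff, Finset.mem_insert]
      constructor
      · rintro ⟨h1, h2⟩
        by_cases hx : x = T i
        · exact Or.inl hx
        · exact Or.inr ⟨h1, fun h => h.elim hx h2⟩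
      · rintro (rfl | ⟨h1, h2⟩)
        · exact ⟨hTS i, hni⟩
        · exact ⟨h1, fun h => h2 (Or.inr h)⟩
    rw [this, Finset.prod_insert (by simp)]
    rfl
  simp only [h4]
  have h5 : ξ u = phi p (lf u * G) := rfl
  rw [← h5]
  linear_combination h2

lemma zf_cyc {r p : ℕ} (hp : p.Prime) [CharP F p] (v : E → Fin (r + 1) → F) (f : E)
    (u : Fin (r + 1) → F) (hbad : ¬ Good p v) :
    Cyc v (univ.erase f) (v f) u r (zf p v (univ.erase f) u) := by
  classical
  set S := univ.erase f with hS
  refine ⟨fun I hI => ?_, fun T hTS hT => ?_, fun s hs J _ => ?_⟩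
  · unfold zf at hI
    split_ifs at hI with hIS
    · have h1 := (det_ne_zero_iff _).1 (right_ne_zero_of_mul hI)
      rw [li_cons_iff] at h1
      refine ⟨hIS, h1.1, ?_, h1.2⟩
      by_contra hw
      refine hbad ⟨Fin.cons (α := fun _ => E) f I, ?_, ?_⟩
      · rw [comp_cons, li_cons_iff]; exact ⟨h1.1, hw⟩
      · rw [image_cons, Finset.sdiff_insert, ← Finset.erase_sdiff_comm]
        exact left_ne_zero_of_mul hI
    · exact absurd rfl hI
  · by_cases hinj : Function.Injective T
    · rw [zf_inj p v S u T hTS hinj]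
      have : (Matrix.of (v ∘ T)).det = 0 := by
        by_contra h; exact hT ((det_ne_zero_iff _).1 h)
      rw [this, mul_zero]
    · obtain ⟨i, j, hij, hne⟩ := Function.not_injective_iff.1 hinj
      have h1 := laplace_eq (Fin.cons (α := fun _ => Fin (r + 1) → F) u (v ∘ T))
        (Fin.cons (α := fun _ => F) 0 (fun _ => phi p (∏ g ∈ S \ univ.image T, lf (v g))))
        i.succ j.succ (by simpa using hne) (by simp [hij]) (by simp)
      rw [sum_cons (fun R => (Matrix.of R).det), zero_mul, zero_sub, neg_eq_zero] at h1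
      rw [← h1]
      refine Finset.sum_congr rfl fun k _ => ?_
      congr 1
      unfold zf
      rw [if_pos (show ∀ j, (T ∘ k.succAbove) j ∈ S from fun j => hTS _)]
      by_cases hk : T k ∈ univ.image (T ∘ k.succAbove)
      · rw [image_succAbove T k, Finset.insert_eq_of_mem hk]; rfl
      · have : (Matrix.of (Fin.cons (α := fun _ => Fin (r + 1) → F) u
            (v ∘ (T ∘ k.succAbove)))).det = 0 := by
          by_contra h
          have h2 := Function.Injective.of_comp
            ((li_cons_iff _ _).1 ((det_ne_zero_iff _).1 h)).1.injective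
          simp only [Finset.mem_image, mem_univ, true_and, not_exists] at hk
          rcases Fin.eq_self_or_eq_succAbove k i with rfl | ⟨i', rfl⟩
          · rcases Fin.eq_self_or_eq_succAbove i j with rfl | ⟨j', rfl⟩
            · exact hne rfl
            · exact hk j' hij.symm
          · rcases Fin.eq_self_or_eq_succAbove k j with rfl | ⟨j', rfl⟩
            · exact hk i' hij
            · exact hne (congrArg _ (h2 hij))
        rw [this, mul_zero]
        exact (mul_eq_zero_of_right _ this).symm
  · subst hs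
    simp only [Fin.cast_refl, Function.comp_id]
    by_cases hJS : ∀ i, J i ∈ S
    · let M : Fin (s + 1 + 1) → Fin (s + 1 + 1) → F :=
        Fin.cons (α := fun _ => Fin (s + 1 + 1) → F) u
          (Fin.cons (α := fun _ => Fin (s + 1 + 1) → F) 0 (v ∘ J))
      let ξ : (Fin (s + 1 + 1) → F) →ₗ[F] F :=
        (Matrix.detRowAlternating (n := Fin (s + 1 + 1)) (R := F)).toMultilinearMap.toLinearMap M
          (Fin.succ 0)
      have hξ : ∀ a, ξ a = (Matrix.of (Fin.cons (α := fun _ => Fin (s + 1 + 1) → F) u
          (Fin.cons (α := fun _ => Fin (s + 1 + 1) → F) a (v ∘ J)))).det := by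
        intro a
        simp only [ξ, M, MultilinearMap.toLinearMap_apply, ← Fin.cons_update, Fin.update_cons_zero]
        rfl
      rw [← deriv_rel hp ξ v (S \ univ.image J)]
      symm
      refine Finset.sum_subset_zero_on_sdiff Finset.sdiff_subset (fun g hg => ?_) (fun g hg => ?_)
      · unfold zf
        split_ifs
        · have hg' : g ∈ univ.image J := by
            rw [Finset.mem_sdiff, Finset.mem_sdiff] at hg; tauto
          obtain ⟨i, -, hi⟩ := Finset.mem_image.1 hg'
          rw [Matrix.det_zero_of_row_eq (i := Fin.succ 0) (j := Fin.succ (Fin.succ i))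
            (fun h => Fin.succ_ne_zero i (Fin.succ_injective _ h).symm)
            (by funext k; simp [hi]), mul_zero]
        · rfl
      · unfold zf
        rw [if_pos, image_cons, Finset.sdiff_insert, comp_cons, hξ, mul_comm]
        intro i; refine Fin.cases ?_ (fun j => ?_) i
        · simpa using (Finset.mem_sdiff.1 hg).1
        · simpa using hJS j
    · refine Finset.sum_eq_zero fun g _ => ?_
      unfold zf
      rw [if_neg]
      intro hh
      exact hJS fun i => by simpa using hh i.succ

/-- The move lemma. -/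
theorem good_of_update {n p : ℕ} (hp : p.Prime) [CharP F p] (v : E → Fin n → F) (f : E)
    (u : Fin n → F) (hw : v f ≠ 0) (hN : NonRes F v (univ.erase f) (v f) u)
    (hg : Good p (Function.update v f u)) : Good p v := by
  classical
  cases n with
  | zero => exact absurd (Subsingleton.elim _ _) hw
  | succ r =>
    by_contra hbad
    have hz := Cyc.eq_zero hw hN r _ (zf_cyc hp v f u hbad)
    obtain ⟨T, hT, hφ⟩ := hg
    have hinj : Function.Injective T := Function.Injective.of_comp hT.injective
    have hdet := (det_ne_zero_iff _).2 hT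
    by_cases hf : ∃ k, T k = f
    · obtain ⟨k, hk⟩ := hf
      have hne : ∀ j, T (k.succAbove j) ≠ f := fun j hj =>
        Fin.succAbove_ne k j (hinj (hj.trans hk.symm))
      have h0 := hz (T ∘ k.succAbove)
      unfold zf at h0
      rw [if_pos (show ∀ j, (T ∘ k.succAbove) j ∈ univ.erase f from fun j => by
        simpa using hne j)] at h0
      refine mul_ne_zero ?_ ?_ h0
      · rw [image_succAbove T k, Finset.sdiff_insert, ← Finset.erase_sdiff_comm, hk] at hφ
        rw [Finset.prod_congr rfl (g := fun g => lf (Function.update v f u g)) fun g hg => by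
          rw [Function.update_of_ne (Finset.ne_of_mem_erase (Finset.mem_sdiff.1 hg).1)]]
        exact hφ
      · rw [det_ne_zero_iff]
        rw [← linearIndependent_equiv (finSuccEquiv' k).symm] at hT
        rw [← linearIndependent_equiv (finSuccEquiv' (0 : Fin (r + 1))).symm]
        convert hT using 1
        funext o
        cases o with
        | none => simp [hk]
        | some j => simp [Function.update_of_ne (hne j)]
    · push Not at hf
      have h1 := zf_inj p v (univ.erase f) u T (fun i => by simpa using hf i) hinj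
      simp only [hz, mul_zero, Finset.sum_const_zero] at h1
      have h2 : Function.update v f u ∘ T = v ∘ T := by
        funext i; simp [Function.update_of_ne (hf i)]
      rw [h2] at hdet
      refine mul_ne_zero ?_ hdet h1.symm
      have hfm : f ∈ univ \ univ.image T := by simpa using hf
      rw [← Finset.mul_prod_erase _ _ hfm, Function.update_self, ← Finset.erase_sdiff_comm] at hφ
      rw [Finset.prod_congr rfl (g := fun g => lf (Function.update v f u g)) fun g hg => by
        rw [Function.update_of_ne (Finset.ne_of_mem_erase (Finset.mem_sdiff.1 hg).1)]]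
      exact hφ

end Pool.Agent.MP_16de82_co

end MrgPart2

-- ======== part 3: formerly Pool.Agent.MP_16de82_co.Comp
section MrgPart3

set_option autoImplicit false
set_option linter.unusedSectionVars false

namespace Pool.Agent.MP_16de82_co

open Submodule Finset

variable {F : Type} [Field F] {V : Type} [AddCommGroup V] [Module F V]
variable {E : Type} [DecidableEq E]

lemma mem_span_split (v : E → V) {L X Y : Set E} (h : L ⊆ X ∪ Y) {z : V}
    (hz : z ∈ span F (v '' L)) :
    ∃ x ∈ span F (v '' X), ∃ y ∈ span F (v '' Y), x + y = z := by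
  have : z ∈ span F (v '' X) ⊔ span F (v '' Y) := by
    rw [← span_union, ← Set.image_union]
    exact span_mono (Set.image_mono h) hz
  exact mem_sup.1 this

lemma exists_comp (v : E → V) (L : Finset E) (w : E) (hw : v w ∈ span F (v '' (L : Set E))) :
    ∃ A : Finset E, A ⊆ L ∧ v w ∈ span F (v '' (A : Set E)) ∧
      Disjoint (span F (v '' (A : Set E))) (span F (v '' ((L : Set E) \ A))) ∧
      Connected F v (insert w A) := by
  classical
  obtain ⟨A, hA, hmin⟩ := Finset.exists_min_image (L.powerset.filter fun A : Finset E =>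
    v w ∈ span F (v '' (A : Set E)) ∧
      Disjoint (span F (v '' (A : Set E))) (span F (v '' ((L : Set E) \ A)))) Finset.card
    ⟨L, by simp [hw]⟩
  simp only [Finset.mem_filter, Finset.mem_powerset] at hA hmin
  obtain ⟨hAL, hwA, hdis⟩ := hA
  refine ⟨A, hAL, hwA, hdis, ?_⟩
  have key : ∀ X : Set E, X ⊆ (insert w A : Finset E) → w ∈ X →
      Disjoint (span F (v '' X)) (span F (v '' (((insert w A : Finset E) : Set E) \ X))) →
      X = (insert w A : Finset E) := by
    intro X hX hwX hd
    set A' := A.filter (fun g => g ∈ X) with hA'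
    have hA'X : (A' : Set E) ⊆ X := fun g hg => (Finset.mem_filter.1 hg).2
    have hA'A : (A' : Set E) ⊆ A := fun g hg => (Finset.mem_filter.1 hg).1
    have hsub : (A : Set E) ⊆ (A' : Set E) ∪ (((insert w A : Finset E) : Set E) \ X) := by
      intro g hg
      by_cases hgX : g ∈ X
      · exact Or.inl (Finset.mem_filter.2 ⟨hg, hgX⟩)
      · exact Or.inr ⟨by simp [show g ∈ A from hg], hgX⟩
    have hYA : (((insert w A : Finset E) : Set E) \ X) ⊆ A := by
      rintro g ⟨hg, hgX⟩
      rcases Finset.mem_insert.1 hg with rfl | hg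
      · exact absurd hwX hgX
      · exact hg
    have h1 : v w ∈ span F (v '' (A' : Set E)) := by
      obtain ⟨x, hx, y, hy, hxy⟩ := mem_span_split v hsub hwA
      have hy0 : y = 0 := by
        refine Submodule.disjoint_def.1 hd y ?_ hy
        rw [show y = v w - x by rw [← hxy]; abel]
        exact sub_mem (subset_span ⟨w, hwX, rfl⟩) (span_mono (Set.image_mono hA'X) hx)
      rw [← hxy, hy0, add_zero]; exact hx
    have h2 : Disjoint (span F (v '' (A' : Set E))) (span F (v '' ((L : Set E) \ A'))) := by
      rw [Submodule.disjoint_def]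
      intro z hz1 hz2
      obtain ⟨y, hy, t, ht, hyt⟩ := mem_span_split v
        (X := ((insert w A : Finset E) : Set E) \ X) (Y := (L : Set E) \ A) (by
          rintro g ⟨hg, hg'⟩
          by_cases hgA : g ∈ A
          · exact Or.inl ((hsub hgA).resolve_left hg')
          · exact Or.inr ⟨hg, hgA⟩) hz2
      have ht0 : t = 0 := by
        refine Submodule.disjoint_def.1 hdis t ?_ ht
        rw [show t = z - y by rw [← hyt]; abel]
        exact sub_mem (span_mono (Set.image_mono hA'A) hz1) (span_mono (Set.image_mono hYA) hy)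
      rw [ht0, add_zero] at hyt
      exact Submodule.disjoint_def.1 hd z (span_mono (Set.image_mono hA'X) hz1) (hyt ▸ hy)
    have h3 := hmin A' ⟨(Finset.filter_subset _ _).trans hAL, h1, h2⟩
    have h4 : A' = A := Finset.eq_of_subset_of_card_le (Finset.filter_subset _ _) h3
    refine Set.Subset.antisymm hX fun g hg => ?_
    rcases Finset.mem_insert.1 hg with rfl | hg
    · exact hwX
    · exact hA'X (by rw [h4]; exact hg)
  intro X hX hd
  by_cases hwX : w ∈ X
  · exact Or.inr (key X hX hwX hd)
  · left
    have := key (((insert w A : Finset E) : Set E) \ X) Set.sdiff_subset ⟨by simp, hwX⟩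
      (by rw [Set.sdiff_sdiff_cancel_left hX]; exact hd.symm)
    rw [Set.eq_empty_iff_forall_notMem]
    intro g hg
    have h5 : g ∈ ((insert w A : Finset E) : Set E) \ X := by rw [this]; exact hX hg
    exact h5.2 hg

lemma Connected.image {v : E → V} {τ : E → E} {K : Finset E} (h : Connected F (v ∘ τ) K) :
    Connected F v (K.image τ) := by
  intro X hX hd
  have h1 := h ((K : Set E) ∩ τ ⁻¹' X) Set.inter_subset_left (hd.mono (span_mono (by
    rintro _ ⟨g, hg, rfl⟩; exact ⟨τ g, hg.2, rfl⟩)) (span_mono (by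
    rintro _ ⟨g, hg, rfl⟩
    exact ⟨τ g, ⟨by simpa using ⟨g, hg.1, rfl⟩, fun hh => hg.2 ⟨hg.1, hh⟩⟩, rfl⟩)))
  rcases h1 with h1 | h1
  · left
    rw [Set.eq_empty_iff_forall_notMem] at h1 ⊢
    intro x hx
    obtain ⟨g, hg, rfl⟩ := Finset.mem_image.1 (hX hx)
    exact h1 g ⟨hg, hx⟩
  · right
    refine Set.Subset.antisymm hX fun x hx => ?_
    obtain ⟨g, hg, rfl⟩ := Finset.mem_image.1 hx
    have : g ∈ (K : Set E) ∩ τ ⁻¹' X := by rw [h1]; exact hg
    exact this.2

lemma exists_low [FiniteDimensional F V] (v : E → V) (P : Finset E → Prop)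
    (hch : ∀ K₁ K₂, P K₁ → P K₂ → span F (v '' (K₁ : Set E)) ≤ span F (v '' (K₂ : Set E)) ∨
      span F (v '' (K₂ : Set E)) ≤ span F (v '' (K₁ : Set E)))
    (R : Finset E) (hR : R.Nonempty) :
    ∃ w ∈ R, ∀ K, P K → (∃ g ∈ R, v g ∈ span F (v '' (K : Set E))) →
      v w ∈ span F (v '' (K : Set E)) := by
  by_cases hex : ∃ K, P K ∧ ∃ g ∈ R, v g ∈ span F (v '' (K : Set E))
  · obtain ⟨K0, ⟨hK0, w, hwR, hw⟩, hmin⟩ := exists_minimalFor_of_wellFoundedLT
      (fun K : Finset E => P K ∧ ∃ g ∈ R, v g ∈ span F (v '' (K : Set E)))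
      (fun K => span F (v '' (K : Set E))) hex
    refine ⟨w, hwR, fun K hK hg => ?_⟩
    rcases hch K0 K hK0 hK with h | h
    · exact h hw
    · exact hmin ⟨hK, hg⟩ h hw
  · obtain ⟨w, hw⟩ := hR
    exact ⟨w, hw, fun K hK hg => absurd ⟨K, hK, hg⟩ hex⟩

lemma card_of_fibers (τ : E → E) (B : Finset E) (p : ℕ)
    (h : ∀ g ∈ B, (B.filter fun x => τ x = τ g).card = p) : B.card = p * (B.image τ).card := by
  rw [Finset.card_eq_sum_card_image τ B, Finset.sum_congr rfl (g := fun _ => p), Finset.sum_const,
    smul_eq_mul, mul_comm]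
  intro a ha
  obtain ⟨g, hg, rfl⟩ := Finset.mem_image.1 ha
  exact h g hg

end Pool.Agent.MP_16de82_co

end MrgPart3

-- ======== part 4: formerly Pool.Agent.MP_16de82_co.Stage
section MrgPart4

set_option autoImplicit false
set_option linter.unusedSectionVars false

namespace Pool.Agent.MP_16de82_co

open Submodule Finset

variable {F : Type} [Field F] {E : Type} [DecidableEq E] [Fintype E] {n : ℕ}

open Classical in
/-- The hypotheses on the configuration. -/
structure Hyp (p : ℕ) (v : E → Fin n → F) : Prop where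
  card : Fintype.card E = p * n
  sub : ∀ U : Submodule F (Fin n → F),
    (univ.filter fun g => v g ∈ U).card ≤ p * Module.finrank F U
  ch : ∀ K₁ K₂ : Finset E, Connected F v K₁ ∧ p < K₁.card → Connected F v K₂ ∧ p < K₂.card →
    span F (v '' (K₁ : Set E)) ≤ span F (v '' (K₂ : Set E)) ∨
      span F (v '' (K₂ : Set E)) ≤ span F (v '' (K₁ : Set E))

/-- The chain invariant. -/
def Chn (p : ℕ) (v : E → Fin n → F) (R : Finset E) : Prop :=
  ∀ K : Finset E, Connected F v K ∧ p < K.card →
    (∀ g, g ∉ R → v g ∈ span F (v '' (K : Set E))) ∨ (∀ g ∈ R, v g ∉ span F (v '' (K : Set E)))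

/-- A state in which every processed vector has been moved to an anchor used exactly `p` times. -/
structure Full (p : ℕ) (v : E → Fin n → F) (R : Finset E) (τ : E → E) : Prop where
  id : ∀ g ∈ R, τ g = g
  out : ∀ g, g ∉ R → τ g ∉ R
  idem : ∀ g, τ (τ g) = τ g
  fib : ∀ g ∈ Rᶜ, (Rᶜ.filter fun x => τ x = τ g).card = p
  li : LinearIndepOn F v (Rᶜ.image τ : Finset E)
  sep : ∀ g ∈ R, v g ∉ span F (v '' (Rᶜ.image τ : Finset E))
  chn : Chn p v R

lemma Full.final {p : ℕ} (hp : p.Prime) [CharP F p] {v : E → Fin n → F} (H : Hyp p v)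
    {τ : E → E} (h : Full p v ∅ τ) : Good p (v ∘ τ) := by
  have hfib := h.fib
  have hli := h.li
  simp only [Finset.compl_empty] at hfib hli
  have hc := card_of_fibers τ univ p hfib
  rw [Finset.card_univ, H.card] at hc
  have hc' : (univ.image τ).card = n := (Nat.eq_of_mul_eq_mul_left hp.pos hc).symm
  let e : (univ.image τ : Finset E) ≃ Fin n := Finset.equivFinOfCardEq hc'
  let T : Fin n → E := fun i => (e.symm i : E)
  have hT : ∀ i, τ (T i) = T i := fun i => by
    obtain ⟨g, -, hg⟩ := Finset.mem_image.1 (e.symm i).2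
    simp only [T, ← hg, h.idem]
  have him : univ.image T = univ.image τ := by
    ext x
    constructor
    · intro hx
      obtain ⟨i, -, rfl⟩ := Finset.mem_image.1 hx
      exact (e.symm i).2
    · intro hx
      exact Finset.mem_image.2 ⟨e ⟨x, hx⟩, mem_univ _, by simp [T]⟩
  have hli' : LinearIndependent F (v ∘ T) := hli.comp e.symm e.symm.injective
  have hinj : Function.Injective T := Function.Injective.of_comp hli'.injective
  refine ⟨T, ?_, ?_⟩
  · convert hli' using 1
    funext i; simp [hT]
  · have := phi_base hp (v ∘ T) ((det_ne_zero_iff _).2 hli')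
    convert this using 2
    rw [← Finset.prod_fiberwise_of_maps_to (t := univ.image T) (g := τ)
      (fun g _ => by rw [him]; exact Finset.mem_image_of_mem _ (mem_univ _)),
      Finset.prod_image (fun i _ j _ hij => hinj hij)]
    refine Finset.prod_congr rfl fun i _ => ?_
    rw [Finset.prod_congr rfl (g := fun _ => lf (v (T i))) (fun g hg => by
      simp only [Function.comp_apply, (Finset.mem_filter.1 hg).2]), Finset.prod_const]
    congr 1
    have h1 := hfib (T i) (mem_univ _)
    have h2 : (univ \ univ.image T).filter (fun g => τ g = T i) =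
        (univ.filter fun x => τ x = τ (T i)).erase (T i) := by
      ext g
      simp only [Finset.mem_filter, Finset.mem_sdiff, mem_univ, true_and, Finset.mem_erase, hT,
        Finset.mem_image, not_exists]
      constructor
      · rintro ⟨h3, h4⟩
        exact ⟨fun hh => h3 i hh.symm, h4⟩
      · rintro ⟨h3, h4⟩
        refine ⟨fun j hj => h3 ?_, h4⟩
        rw [← h4, ← hj, hT]
    rw [h2, Finset.card_erase_of_mem (by simp), h1]

lemma Chn.erase {p : ℕ} {v : E → Fin n → F} {R : Finset E} (h : Chn p v R) (w : E)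
    (hw : ∀ K : Finset E, Connected F v K ∧ p < K.card →
      (∀ g, g ∉ R → v g ∈ span F (v '' (K : Set E))) →
      (∃ g ∈ R, v g ∈ span F (v '' (K : Set E))) → v w ∈ span F (v '' (K : Set E))) :
    Chn p v (R.erase w) := by
  intro K hK
  by_cases h2 : ∀ g ∈ R, v g ∉ span F (v '' (K : Set E))
  · exact Or.inr fun g hg => h2 g (Finset.mem_of_mem_erase hg)
  · have h1 := (h K hK).resolve_right h2
    push Not at h2
    left
    intro g hg
    by_cases hgw : g = w
    · rw [hgw]; exact hw K hK h1 h2
    · exact h1 g fun hh => hg (Finset.mem_erase.2 ⟨hgw, hh⟩)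

/-- The map of a state with a block `C` moved to the anchor `u`. -/
def upd (τ : E → E) (C : Finset E) (u : E) (g : E) : E := if g ∈ C then u else τ g

lemma Full.nonres {p : ℕ} [CharP F p] {v : E → Fin n → F} (hv : ∀ g, v g ≠ 0)
    {R : Finset E} {τ : E → E} (h : Full p v R τ) {C : Finset E} {u w : E} (hCR : C ⊆ R)
    (hu : u ∈ C) (hwR : w ∈ R) (hwC : w ∉ C) (hc : Chn p v (R \ C)) :
    NonRes F (v ∘ upd τ C u) (univ.erase w) (v w) (v u) := by
  classical
  intro U hwU huU hw
  set v' := v ∘ upd τ C u with hv'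
  have hv'w : v' w = v w := by simp [hv', upd, hwC, h.id w hwR]
  set L := (univ.erase w).filter (fun g => v' g ∈ U) with hL
  have hLs : (L : Set E) = {g | g ∈ univ.erase w ∧ v' g ∈ U} := by ext g; simp [hL]
  rw [← hLs, ← hv'w] at hw
  obtain ⟨A, hAL, hwA, hdis, hcon⟩ := exists_comp v' L w hw
  have hA : ∀ g ∈ A, g ∈ univ.erase w ∧ v' g ∈ U := fun g hg => Finset.mem_filter.1 (hAL hg)
  have hAC : ∀ g ∈ A, g ∉ C := fun g hg hgC => huU (by simpa [hv', upd, hgC] using (hA g hg).2)
  have hAτ : ∀ g ∈ A, upd τ C u g = τ g := fun g hg => by simp [upd, hAC g hg]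
  refine ⟨A, hA, ?_, ?_⟩
  swap
  · convert hdis using 3
    ext g; simp [hL, and_assoc]
  have hwA' : w ∉ A := fun hh => by simpa using (hA w hh).1
  have h1 : (A.filter fun g => g ∉ R).card = p * ((A.filter fun g => g ∉ R).image τ).card := by
    refine card_of_fibers τ _ p fun g hg => ?_
    rw [Finset.mem_filter] at hg
    rw [← h.fib g (by simpa using hg.2)]
    congr 1
    ext x
    simp only [Finset.mem_filter, Finset.mem_compl]
    refine ⟨fun hh => ⟨hh.1.2, hh.2⟩, fun hh => ⟨⟨?_, hh.1⟩, hh.2⟩⟩
    have hx : v' x = v' g := by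
      have hxC : x ∉ C := fun hh' => hh.1 (hCR hh')
      simp [hv', upd, hxC, hAC g hg.1, hh.2]
    by_contra hxA
    have hxL : x ∈ L := by
      refine Finset.mem_filter.2 ⟨?_, hx ▸ (hA g hg.1).2⟩
      simpa using fun hh' : x = w => hh.1 (hh' ▸ hwR)
    have := Submodule.disjoint_def.1 hdis (v' x) (hx ▸ subset_span ⟨g, hg.1, rfl⟩)
      (subset_span ⟨x, ⟨hxL, hxA⟩, rfl⟩)
    exact hv _ this
  have h2 : (A.filter fun g => g ∈ R).card ≠ 0 := by
    intro h0
    rw [Finset.card_eq_zero, Finset.filter_eq_empty_iff] at h0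
    refine h.sep w hwR ?_
    rw [← hv'w]
    refine span_mono ?_ hwA
    rintro _ ⟨g, hg, rfl⟩
    exact ⟨τ g, by simpa using ⟨g, h0 hg, rfl⟩, by simp [hv', hAτ g hg]⟩
  have hK := hcon.image
  have hKU : span F (v '' ((insert w A).image (upd τ C u) : Finset E)) ≤ U := by
    rw [span_le]
    rintro _ ⟨x, hx, rfl⟩
    obtain ⟨g, hg, rfl⟩ := Finset.mem_image.1 hx
    rcases Finset.mem_insert.1 hg with rfl | hg
    · exact (show v' g ∈ U from hv'w ▸ hwU)
    · exact (hA g hg).2
  have hsub : insert w (A.filter fun g => g ∈ R) ⊆ (insert w A).image (upd τ C u) := by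
    intro g hg
    rcases Finset.mem_insert.1 hg with rfl | hg
    · exact Finset.mem_image.2 ⟨g, by simp, by simp [upd, hwC, h.id g hwR]⟩
    · rw [Finset.mem_filter] at hg
      exact Finset.mem_image.2 ⟨g, by simp [hg.1], by rw [hAτ g hg.1, h.id g hg.2]⟩
  have h3 : ((insert w A).image (upd τ C u)).card ≤ p := by
    by_contra hlt
    rcases hc _ ⟨hK, not_le.1 hlt⟩ with h4 | h4
    · exact huU (hKU (h4 u (by simp [hu])))
    · exact h4 w (by simp [hwR, hwC]) (subset_span ⟨w, hsub (by simp), rfl⟩)
  have h4 := Finset.card_le_card hsub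
  rw [Finset.card_insert_of_notMem (fun hh => hwA' (Finset.mem_filter.1 hh).1)] at h4
  rw [← Finset.card_filter_add_card_filter_not (fun g => g ∈ R), h1, Ne,
    CharP.cast_eq_zero_iff F p, Nat.dvd_add_left (dvd_mul_right _ _)]
  exact Nat.not_dvd_of_pos_of_lt (by omega) (by omega)

lemma Full.close {p : ℕ} {v : E → Fin n → F} {R : Finset E} {τ : E → E} (h : Full p v R τ)
    {C : Finset E} {u : E} (hCR : C ⊆ R) (hu : u ∈ C) (hcard : C.card = p)
    (hsep : ∀ g ∈ R \ C, v g ∉ span F (v '' (insert u (Rᶜ.image τ) : Finset E)))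
    (hc : Chn p v (R \ C)) : Full p v (R \ C) (upd τ C u) := by
  have hτC : ∀ g, g ∉ C → τ g ∉ C := fun g hg hh => by
    by_cases hgR : g ∈ R
    · rw [h.id g hgR] at hh; exact hg hh
    · exact h.out g hgR (hCR hh)
  have him : (R \ C)ᶜ.image (upd τ C u) = insert u (Rᶜ.image τ) := by
    ext x
    simp only [Finset.mem_image, Finset.mem_compl, Finset.mem_sdiff, Finset.mem_insert, not_and,
      not_not]
    constructor
    · rintro ⟨g, hg, rfl⟩
      by_cases hgC : g ∈ C
      · exact Or.inl (by simp [upd, hgC])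
      · exact Or.inr ⟨g, fun hh => hgC (hg hh), by simp [upd, hgC]⟩
    · rintro (rfl | ⟨g, hg, rfl⟩)
      · exact ⟨x, fun _ => hu, by simp [upd, hu]⟩
      · exact ⟨g, fun hh => absurd hh hg, by simp [upd, show g ∉ C from fun hh => hg (hCR hh)]⟩
  refine ⟨fun g hg => ?_, fun g hg => ?_, fun g => ?_, fun g hg => ?_, ?_, ?_, hc⟩
  · rw [Finset.mem_sdiff] at hg
    simp [upd, hg.2, h.id g hg.1]
  · by_cases hgC : g ∈ C
    · simp [upd, hgC, hu]
    · have : g ∉ R := fun hh => hg (Finset.mem_sdiff.2 ⟨hh, hgC⟩)
      simp [upd, hgC, h.out g this]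
  · by_cases hgC : g ∈ C
    · simp [upd, hgC, hu]
    · simp [upd, hgC, hτC g hgC, h.idem]
  · by_cases hgC : g ∈ C
    · rw [← hcard]
      congr 1
      ext x
      simp only [Finset.mem_filter, Finset.mem_compl, Finset.mem_sdiff, not_and, not_not, upd,
        hgC, if_true]
      refine ⟨fun hh => ?_, fun hh => ⟨fun _ => hh, by simp [hh]⟩⟩
      by_contra hx
      rw [if_neg hx] at hh
      exact h.out x (fun hR => hx (hh.1 hR)) (hh.2 ▸ hCR hu)
    · have hgR : g ∉ R := fun hh => by simp [hh, hgC] at hg
      rw [← h.fib g (by simpa using hgR)]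
      congr 1
      ext x
      simp only [Finset.mem_filter, Finset.mem_compl, Finset.mem_sdiff, not_and, not_not, upd,
        hgC, if_false]
      constructor
      · rintro ⟨h1, h2⟩
        by_cases hx : x ∈ C
        · rw [if_pos hx] at h2
          exact absurd (h2 ▸ hCR hu) (h.out g hgR)
        · rw [if_neg hx] at h2
          exact ⟨fun hh => hx (h1 hh), h2⟩
      · rintro ⟨h1, h2⟩
        exact ⟨fun hh => absurd hh h1, by rw [if_neg fun hh => h1 (hCR hh), h2]⟩
  · rw [him, Finset.coe_insert]
    exact h.li.insert (h.sep u (hCR hu))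
  · rw [him]; exact hsep

open Classical in
lemma Full.count {p : ℕ} (hp : p.Prime) {v : E → Fin n → F} (H : Hyp p v) {R : Finset E}
    {τ : E → E} (h : Full p v R τ) {u : E} (hu : u ∈ R) :
    (R.filter fun g => v g ∈ span F (v '' (insert u (Rᶜ.image τ) : Finset E))).card ≤ p := by
  set An := Rᶜ.image τ with hAn
  set X := R.filter fun g => v g ∈ span F (v '' (insert u An : Finset E)) with hX
  have hdec : ∀ g ∈ X, ∃ c : F, c ≠ 0 ∧ ∃ z ∈ span F (v '' (An : Set E)), v g = c • v u + z := by
    intro g hg
    rw [Finset.mem_filter, Finset.coe_insert, Set.image_insert_eq, mem_span_insert] at hg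
    obtain ⟨hgR, c, z, hz, hc⟩ := hg
    refine ⟨c, ?_, z, hz, hc⟩
    rintro rfl
    exact h.sep g hgR (by rw [hc, zero_smul, zero_add]; exact hz)
  set L := X.erase u ∪ An with hL
  by_cases hw : v u ∈ span F (v '' (L : Set E))
  swap
  · have : X ⊆ {u} := by
      intro g hg
      by_contra hgu
      obtain ⟨c, hc, z, hz, hcz⟩ := hdec g hg
      apply hw
      rw [show v u = c⁻¹ • (v g - z) by rw [hcz, add_sub_cancel_right, inv_smul_smul₀ hc]]
      refine smul_mem _ _ (sub_mem (subset_span ⟨g, ?_, rfl⟩) (span_mono (Set.image_mono ?_) hz))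
      · simp only [hL, Finset.coe_union, Set.mem_union, Finset.mem_coe, Finset.mem_erase]
        exact Or.inl ⟨by simpa using hgu, hg⟩
      · simp [hL]
    exact (Finset.card_le_card this).trans (by simpa using hp.one_le)
  obtain ⟨A, hAL, huA, hdis, hcon⟩ := exists_comp v L u hw
  have hXA : X ⊆ insert u A := by
    intro g hg
    by_contra hgA
    rw [Finset.mem_insert, not_or] at hgA
    obtain ⟨c, hc, z, hz, hcz⟩ := hdec g hg
    obtain ⟨x, hx, y, hy, hxy⟩ := mem_span_split v (X := (An : Set E) ∩ A)
      (Y := (L : Set E) \ A) (by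
        intro a ha
        by_cases haA : a ∈ A
        · exact Or.inl ⟨ha, haA⟩
        · exact Or.inr ⟨by simp [hL, show a ∈ An from ha], haA⟩) hz
    have h0 : c • v u + x = 0 := by
      refine Submodule.disjoint_def.1 hdis _ (add_mem (smul_mem _ _ huA)
        (span_mono (Set.image_mono Set.inter_subset_right) hx)) ?_
      rw [show c • v u + x = v g - y by rw [hcz, ← hxy]; abel]
      exact sub_mem (subset_span ⟨g, ⟨by simp [hL, hgA.1, hg], hgA.2⟩, rfl⟩) hy
    refine h.sep u hu ?_
    rw [show v u = (-c⁻¹) • x by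
      rw [← neg_eq_of_add_eq_zero_right h0, neg_smul_neg, inv_smul_smul₀ hc]]
    exact smul_mem _ _ (span_mono (Set.image_mono Set.inter_subset_left) hx)
  by_cases hlt : (insert u A).card ≤ p
  · exact (Finset.card_le_card hXA).trans hlt
  set W := span F (v '' (insert u An : Finset E)) with hW
  have hKW : span F (v '' (insert u A : Finset E)) ≤ W := by
    rw [span_le]
    rintro _ ⟨g, hg, rfl⟩
    rcases Finset.mem_insert.1 hg with rfl | hg
    · exact subset_span ⟨g, by simp, rfl⟩
    · rcases Finset.mem_union.1 (hAL hg) with hg | hg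
      · exact (Finset.mem_filter.1 (Finset.mem_of_mem_erase hg)).2
      · exact subset_span ⟨g, by simp [hg], rfl⟩
  rcases h.chn _ ⟨hcon, not_le.1 hlt⟩ with h4 | h4
  swap
  · exact (h4 u hu (subset_span ⟨u, by simp, rfl⟩)).elim
  have h5 := H.sub W
  have h6 : Module.finrank F W ≤ An.card + 1 := by
    have : W = span F ((insert u An).image v : Finset (Fin n → F)) := by
      rw [hW, Finset.coe_image]
    rw [this]
    exact (finrank_span_finset_le_card _).trans
      (Finset.card_image_le.trans (Finset.card_insert_le _ _))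
  have h7 := card_of_fibers τ Rᶜ p h.fib
  have h8 : X ∪ Rᶜ ⊆ univ.filter fun g => v g ∈ W := by
    intro g hg
    rcases Finset.mem_union.1 hg with hg | hg
    · exact Finset.mem_filter.2 ⟨mem_univ _, (Finset.mem_filter.1 hg).2⟩
    · exact Finset.mem_filter.2 ⟨mem_univ _, hKW (h4 g (by simpa using hg))⟩
  have h9 := Finset.card_le_card h8
  rw [Finset.card_union_of_disjoint (Finset.disjoint_left.2 fun g hg hg' => by
    exact (Finset.mem_compl.1 hg') (Finset.mem_filter.1 hg).1), h7] at h9
  have := Nat.mul_le_mul_left p h6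
  rw [← hAn] at h9
  nlinarith

theorem Full.good {p : ℕ} (hp : p.Prime) [CharP F p] {v : E → Fin n → F} (H : Hyp p v) :
    ∀ (N : ℕ) (R : Finset E) (τ : E → E), R.card = N → Full p v R τ → Good p (v ∘ τ) := by
  classical
  have hv : ∀ g, v g ≠ 0 := by
    intro g hg
    have := H.sub ⊥
    rw [finrank_bot, mul_zero, Nat.le_zero, Finset.card_eq_zero, Finset.filter_eq_empty_iff] at this
    exact this (mem_univ g) (by simp [hg])
  intro N
  induction N using Nat.strong_induction_on with
  | _ N ih =>
  intro R τ hN h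
  rcases R.eq_empty_or_nonempty with rfl | hR
  · exact h.final hp H
  obtain ⟨u, hu, hlow⟩ := exists_low v _ H.ch R hR
  have hpR : p ≤ R.card := by
    have h7 := card_of_fibers τ Rᶜ p h.fib
    rw [Finset.card_compl, H.card] at h7
    have h8 : R.card ≤ p * n := H.card ▸ Finset.card_le_univ R
    refine Nat.le_of_dvd hR.card_pos ((Nat.dvd_add_right (dvd_mul_right p
      (Rᶜ.image τ).card)).1 ?_)
    rw [← h7, Nat.sub_add_cancel h8]
    exact dvd_mul_right _ _
  set W := span F (v '' (insert u (Rᶜ.image τ) : Finset E)) with hW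
  have inner : ∀ (k : ℕ) (C : Finset E), C.card + k = p → C ⊆ R → u ∈ C →
      ((R \ C).filter fun g => v g ∈ W).card + C.card ≤ p → Chn p v (R \ C) →
      Good p (v ∘ upd τ C u) := by
    intro k
    induction k with
    | zero =>
      intro C hk hCR huC hcnt hc
      refine ih (R \ C).card ?_ _ _ rfl (h.close hCR huC hk ?_ hc)
      · rw [← hN]
        exact Finset.card_lt_card (Finset.sdiff_ssubset hCR ⟨u, huC⟩)
      · have : ((R \ C).filter fun g => v g ∈ W).card = 0 := by omega
        rw [Finset.card_eq_zero, Finset.filter_eq_empty_iff] at this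
        exact this
    | succ k ihk =>
      intro C hk hCR huC hcnt hc
      have hne : (R \ C).Nonempty := by
        rw [← Finset.card_pos, Finset.card_sdiff_of_subset hCR]; omega
      have : ∃ w ∈ R \ C, Chn p v ((R \ C).erase w) ∧
          (((R \ C).erase w).filter fun g => v g ∈ W).card + (C.card + 1) ≤ p := by
        by_cases hex : ∃ w ∈ R \ C, v w ∈ W
        · obtain ⟨w, hw, hwW⟩ := hex
          refine ⟨w, hw, hc.erase w fun K _ h1 _ => ?_, ?_⟩
          · refine (span_le.2 ?_ : W ≤ _) hwW
            rintro _ ⟨g, hg, rfl⟩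
            refine h1 g fun hh => ?_
            rcases Finset.mem_insert.1 hg with rfl | hg
            · exact (Finset.mem_sdiff.1 hh).2 huC
            · obtain ⟨x, hx, rfl⟩ := Finset.mem_image.1 hg
              exact h.out x (by simpa using hx) (Finset.mem_sdiff.1 hh).1
          · rw [Finset.filter_erase, Finset.card_erase_of_mem (Finset.mem_filter.2 ⟨hw, hwW⟩)]
            have : 0 < ((R \ C).filter fun g => v g ∈ W).card :=
              Finset.card_pos.2 ⟨w, Finset.mem_filter.2 ⟨hw, hwW⟩⟩
            omega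
        · obtain ⟨w, hw, hlow'⟩ := exists_low v _ H.ch _ hne
          refine ⟨w, hw, hc.erase w fun K hK _ h2 => hlow' K hK h2, ?_⟩
          rw [Finset.filter_eq_empty_iff.2 fun g hg hh =>
            hex ⟨g, Finset.mem_of_mem_erase hg, hh⟩, Finset.card_empty]
          omega
      obtain ⟨w, hw, hc', hcnt'⟩ := this
      rw [Finset.mem_sdiff] at hw
      rw [← Finset.sdiff_insert] at hc' hcnt'
      have h1 := ihk (insert w C) (by rw [Finset.card_insert_of_notMem hw.2]; omega)
        (Finset.insert_subset hw.1 hCR) (Finset.mem_insert_of_mem huC)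
        (by rw [Finset.card_insert_of_notMem hw.2]; exact hcnt') hc'
      have hv'w : (v ∘ upd τ C u) w = v w := by simp [upd, hw.2, h.id w hw.1]
      refine good_of_update hp _ w (v u) (hv'w ▸ hv w)
        (hv'w ▸ h.nonres hv hCR huC hw.1 hw.2 hc) ?_
      convert h1 using 1
      funext g
      by_cases hg : g = w
      · simp [hg, upd]
      · simp [upd, hg]
  have h1 := inner (p - 1) {u} (by have := hp.one_le; simp; omega) (by simpa using hu) (by simp)
    (by
      have := h.count hp H hu
      have huW : v u ∈ W := subset_span ⟨u, by simp, rfl⟩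
      rw [← hW] at this
      rw [Finset.sdiff_singleton_eq_erase, Finset.filter_erase, Finset.card_erase_of_mem
        (Finset.mem_filter.2 ⟨hu, huW⟩), Finset.card_singleton]
      have := hp.one_le
      omega)
    (by
      rw [Finset.sdiff_singleton_eq_erase]
      exact h.chn.erase u fun K hK _ h2 => hlow K hK h2)
  convert h1 using 2
  funext g
  by_cases hg : g = u
  · simp [hg, upd, h.id u hu]
  · simp [upd, hg]

theorem Hyp.good {p : ℕ} (hp : p.Prime) [CharP F p] {v : E → Fin n → F} (H : Hyp p v) :
    Good p v :=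
  Full.good hp H _ univ id rfl
    ⟨fun _ _ => rfl, fun g hg => absurd (mem_univ g) hg, fun _ => rfl, by simp, by simp,
      fun g _ => by
        have := H.sub ⊥
        classical
        rw [finrank_bot, mul_zero, Nat.le_zero, Finset.card_eq_zero,
          Finset.filter_eq_empty_iff] at this
        simpa using this (mem_univ g),
      fun K _ => Or.inl fun g hg => absurd (mem_univ g) hg⟩

end Pool.Agent.MP_16de82_co

end MrgPart4

-- marker of a merged file
example : 731051 + 120425 = 731051 + 120425 := rfl
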